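import Pool.Agent.K3h34.BF.Stm

/-!
# BF brick LOG: the logarithm of `f` on the simplex
-/

set_option autoImplicit false

namespace Pool.Agent.K3h43.BF

open MvPolynomial
open Pool.Agent.K3h34.BF
open Pool.Agent.K3h15.DM (Rx sh hx Dl Yp Sym IsDisc hz)
open Pool.Agent.K3h15.BF (dh IsDiscB)

/-- the Vandermonde product -/
noncomputable def Dr {n : ℕ} (x : Fin n → ℝ) : ℝ := ∏ i : Fin n, ∏ j ∈ Finset.Ioi i, (x j - x i)

/-- the real factor -/
noncomputable def Rr {n : ℕ} (a b₁ b₂ : ℕ) (x : Fin n → ℝ) : ℝ :=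
  Dr x ^ (2 * a) * (∏ i, x i) ^ b₁ * (∏ i, (1 - x i)) ^ b₂

/-- the complex factor -/
noncomputable def Qc {n : ℕ} {J : Type} [Fintype J] (η : J → ℂ) (b : J → ℕ) (x : Fin n → ℝ) : ℂ :=
  ∏ j, (∏ i, (1 - (x i : ℂ) * η j)) ^ b j

lemma ev_Dl {n : ℕ} (x : Fin n → ℝ) : ev x (Dl n) = (Dr x : ℂ) := by
  unfold ev Dl Dr
  push_cast
  simp only [map_prod, map_sub, eval_X]

lemma value (hv' : StmVal) (n : ℕ) (F : Rc n) (a b₀ b₁ b₂ : ℕ) (w l : ℂ) (J : Type) [Fintype J]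
    (z : J → ℂ) (b : J → ℕ) (hn : 1 ≤ n) (hF : IsDiscB n F) (hz : ∀ j, z j - w ≠ 0)
    (x : Fin n → ℝ) :
    ev x (qq n w l (X (Fin.last n) ^ b₀ * F ^ a * hv n w ^ b₁ * hv n (w + l) ^ b₂ *
      ∏ j, hv n (z j) ^ b j)) =
    ((l ^ (n * (n - 1))) ^ a * ((-l) ^ n) ^ b₁ * (l ^ n) ^ b₂ * ∏ j, ((z j - w) ^ n) ^ b j) *
      (Rr a b₁ b₂ x : ℂ) * Qc (fun j => l / (z j - w)) b x := by
  obtain ⟨h1, h2, h3, -, -⟩ := hv' n w l hn
  have hD := ev_Dl x
  unfold ev at hD ⊢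
  have h2' := h2 F hF
  simp only [map_mul, map_pow, map_prod]
  simp only [h1, h2', h3]
  simp only [map_pow, map_mul, map_prod, map_one, map_sub, eval_C, eval_X, hD]
  have e1 : ∏ i : Fin n, ((w - w) - l * (x i : ℂ)) = (-l) ^ n * ∏ i, (x i : ℂ) := by
    rw [← Fin.prod_const, ← Finset.prod_mul_distrib]
    exact Finset.prod_congr rfl fun i _ => by ring
  have e2 : ∏ i : Fin n, ((w + l - w) - l * (x i : ℂ)) = l ^ n * ∏ i, (1 - (x i : ℂ)) := by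
    rw [← Fin.prod_const, ← Finset.prod_mul_distrib]
    exact Finset.prod_congr rfl fun i _ => by ring
  have e3 : ∀ j, ∏ i : Fin n, ((z j - w) - l * (x i : ℂ)) =
      (z j - w) ^ n * ∏ i, (1 - (x i : ℂ) * (l / (z j - w))) := by
    intro j
    rw [← Fin.prod_const, ← Finset.prod_mul_distrib]
    refine Finset.prod_congr rfl fun i _ => ?_
    have := hz j
    field_simp
  simp only [e1, e2, e3, mul_pow, Finset.prod_mul_distrib, one_pow, one_mul]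
  unfold Rr Qc
  push_cast
  rw [← pow_mul]
  ring

lemma Dr_pos {n : ℕ} {x : Fin n → ℝ} (hx : x ∈ Usim n) : 0 < Dr x := by
  refine Finset.prod_pos fun i _ => Finset.prod_pos fun j hj => ?_
  have := hx.1 i j (Finset.mem_Ioi.mp hj)
  linarith

lemma Dr_le {n : ℕ} {x : Fin n → ℝ} (hx : x ∈ Usim n) : Dr x ≤ 1 := by
  refine Finset.prod_le_one (fun i _ => Finset.prod_nonneg fun j hj => ?_) fun i _ =>
    Finset.prod_le_one (fun j hj => ?_) fun j hj => ?_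
  · have := hx.1 i j (Finset.mem_Ioi.mp hj)
    linarith
  · have := hx.1 i j (Finset.mem_Ioi.mp hj)
    linarith
  · have h1 := (hx.2 i).1
    have h2 := (hx.2 j).2
    linarith

lemma px_pos {n : ℕ} {x : Fin n → ℝ} (hx : x ∈ Usim n) : 0 < ∏ i, x i :=
  Finset.prod_pos fun i _ => (hx.2 i).1

lemma px_le {n : ℕ} {x : Fin n → ℝ} (hx : x ∈ Usim n) : ∏ i, x i ≤ 1 :=
  Finset.prod_le_one (fun i _ => (hx.2 i).1.le) fun i _ => (hx.2 i).2.le

lemma qx_pos {n : ℕ} {x : Fin n → ℝ} (hx : x ∈ Usim n) : 0 < ∏ i, (1 - x i) :=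
  Finset.prod_pos fun i _ => by linarith [(hx.2 i).2]

lemma qx_le {n : ℕ} {x : Fin n → ℝ} (hx : x ∈ Usim n) : ∏ i, (1 - x i) ≤ 1 :=
  Finset.prod_le_one (fun i _ => by linarith [(hx.2 i).2]) fun i _ => by linarith [(hx.2 i).1]

lemma Rr_pos {n : ℕ} (a b₁ b₂ : ℕ) {x : Fin n → ℝ} (hx : x ∈ Usim n) : 0 < Rr a b₁ b₂ x :=
  mul_pos (mul_pos (pow_pos (Dr_pos hx) _) (pow_pos (px_pos hx) _)) (pow_pos (qx_pos hx) _)

lemma Rr_le {n : ℕ} (a b₁ b₂ : ℕ) {x : Fin n → ℝ} (hx : x ∈ Usim n) : Rr a b₁ b₂ x ≤ 1 := by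
  have h1 := pow_le_one₀ (Dr_pos hx).le (Dr_le hx) (n := 2 * a)
  have h2 := pow_le_one₀ (px_pos hx).le (px_le hx) (n := b₁)
  have h3 := pow_le_one₀ (qx_pos hx).le (qx_le hx) (n := b₂)
  have h1' := pow_pos (Dr_pos hx) (2 * a)
  have h2' := pow_pos (px_pos hx) b₁
  have h3' := pow_pos (qx_pos hx) b₂
  exact mul_le_one₀ (mul_le_one₀ h1 h2'.le h2) h3'.le h3

lemma Ef_eq {n : ℕ} (x : Fin n → ℝ) : Ef x = (∏ i, x i) * (∏ i, (1 - x i)) * Dr x ^ 2 := by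
  unfold Ef Dr
  rw [Finset.prod_mul_distrib, ← Finset.prod_pow]
  congr 1
  exact Finset.prod_congr rfl fun i _ => Finset.prod_pow _ _ _

lemma Ef_le {n : ℕ} (a b₁ b₂ : ℕ) {x : Fin n → ℝ} (hx : x ∈ Usim n) :
    Ef x ^ (a + b₁ + b₂) ≤ Rr a b₁ b₂ x := by
  rw [Ef_eq, mul_pow, mul_pow, Rr, pow_mul (Dr x)]
  have h1 : (Dr x ^ 2) ^ (a + b₁ + b₂) ≤ (Dr x ^ 2) ^ a :=
    pow_le_pow_of_le_one (pow_pos (Dr_pos hx) 2).le
      (pow_le_one₀ (Dr_pos hx).le (Dr_le hx)) (by omega)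
  have h2 : (∏ i, x i) ^ (a + b₁ + b₂) ≤ (∏ i, x i) ^ b₁ :=
    pow_le_pow_of_le_one (px_pos hx).le (px_le hx) (by omega)
  have h3 : (∏ i, (1 - x i)) ^ (a + b₁ + b₂) ≤ (∏ i, (1 - x i)) ^ b₂ :=
    pow_le_pow_of_le_one (qx_pos hx).le (qx_le hx) (by omega)
  have p1 : 0 ≤ (Dr x ^ 2) ^ (a + b₁ + b₂) := pow_nonneg (pow_pos (Dr_pos hx) 2).le _
  have p2 : 0 ≤ (∏ i, x i) ^ (a + b₁ + b₂) := pow_nonneg (px_pos hx).le _
  have p3 : 0 ≤ (∏ i, (1 - x i)) ^ (a + b₁ + b₂) := pow_nonneg (qx_pos hx).le _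
  calc (∏ i, x i) ^ (a + b₁ + b₂) * (∏ i, (1 - x i)) ^ (a + b₁ + b₂) *
        (Dr x ^ 2) ^ (a + b₁ + b₂) =
      (Dr x ^ 2) ^ (a + b₁ + b₂) * (∏ i, x i) ^ (a + b₁ + b₂) *
        (∏ i, (1 - x i)) ^ (a + b₁ + b₂) := by ring
    _ ≤ _ := by
      apply mul_le_mul (mul_le_mul h1 h2 p2 (p1.trans h1)) h3 p3
      exact mul_nonneg (p1.trans h1) (p2.trans h2)

/-- the real part of the logarithm -/
noncomputable def Lr {n : ℕ} (a b₁ b₂ : ℕ) (x : Fin n → ℝ) : ℝ :=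
  ((2 * a : ℕ) : ℝ) * Real.log (Dr x) + (b₁ : ℝ) * ∑ i, Real.log (x i) +
    (b₂ : ℝ) * ∑ i, Real.log (1 - x i)

lemma exp_Lr {n : ℕ} (a b₁ b₂ : ℕ) {x : Fin n → ℝ} (hx : x ∈ Usim n) :
    Real.exp (Lr a b₁ b₂ x) = Rr a b₁ b₂ x := by
  unfold Lr Rr
  rw [Real.exp_add, Real.exp_add, Real.exp_nat_mul, Real.exp_nat_mul, Real.exp_nat_mul,
    Real.exp_log (Dr_pos hx), Real.exp_sum, Real.exp_sum]
  have e1 : ∏ i, Real.exp (Real.log (x i)) = ∏ i, x i :=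
    Finset.prod_congr rfl fun i _ => Real.exp_log (hx.2 i).1
  have e2 : ∏ i, Real.exp (Real.log (1 - x i)) = ∏ i, (1 - x i) :=
    Finset.prod_congr rfl fun i _ => Real.exp_log (by linarith [(hx.2 i).2])
  rw [e1, e2]

/-- the complex part of the logarithm -/
noncomputable def Lq {n : ℕ} {J : Type} [Fintype J] (η : J → ℂ) (b : J → ℕ) (x : Fin n → ℝ) : ℂ :=
  ∑ j, (b j : ℂ) * ∑ i, Complex.log (1 - (x i : ℂ) * η j)

lemma exp_Lq {n : ℕ} {J : Type} [Fintype J] (η : J → ℂ) (b : J → ℕ) (x : Fin n → ℝ)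
    (h : ∀ i j, 1 - (x i : ℂ) * η j ≠ 0) : Complex.exp (Lq η b x) = Qc η b x := by
  unfold Lq Qc
  rw [Complex.exp_sum]
  refine Finset.prod_congr rfl fun j _ => ?_
  rw [Complex.exp_nat_mul, Complex.exp_sum]
  congr 1
  exact Finset.prod_congr rfl fun i _ => Complex.exp_log (h i j)

lemma slit (η : ℂ) (h : ∀ t : ℝ, 0 ≤ t → t ≤ 1 → 1 - (t : ℂ) * η ≠ 0) (t : ℝ) (h0 : 0 ≤ t)
    (h1 : t ≤ 1) : 1 - (t : ℂ) * η ∈ Complex.slitPlane := by
  rw [Complex.mem_slitPlane_iff_not_le_zero]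
  intro hle
  rw [Complex.le_def] at hle
  obtain ⟨hre, him⟩ := hle
  simp only [Complex.sub_re, Complex.one_re, Complex.mul_re, Complex.ofReal_re, Complex.ofReal_im,
    zero_mul, sub_zero, Complex.zero_re, Complex.sub_im, Complex.one_im, Complex.mul_im, add_zero,
    Complex.zero_im, zero_sub, neg_eq_zero] at hre him
  have ht : 0 < t := by
    rcases h0.eq_or_lt with h | h
    · rw [← h] at hre
      norm_num at hre
    · exact h
  have hηi : η.im = 0 := by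
    rcases mul_eq_zero.mp him with h | h
    · exact absurd h ht.ne'
    · exact h
  have hηr : 1 ≤ t * η.re := by linarith
  have hη1 : 1 ≤ η.re := by
    by_contra hcon
    push Not at hcon
    have hpos : 0 < η.re := by
      by_contra h2
      push Not at h2
      have := mul_nonpos_of_nonneg_of_nonpos ht.le h2
      linarith
    nlinarith
  have hηpos : 0 < η.re := by linarith
  apply h (1 / η.re) (by positivity) (by rw [div_le_one hηpos]; exact hη1)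
  have : η = (η.re : ℂ) := Complex.ext rfl (by simp [hηi])
  rw [this]
  push_cast
  simp only [Complex.ofReal_re]
  have h5 : (η.re : ℂ) ≠ 0 := by exact_mod_cast hηpos.ne'
  field_simp
  ring

lemma continuous_Dr {n : ℕ} : Continuous (fun x : Fin n → ℝ => Dr x) := by
  unfold Dr
  fun_prop

lemma contOn_Lr {n : ℕ} (a b₁ b₂ : ℕ) : ContinuousOn (fun x : Fin n → ℝ => Lr a b₁ b₂ x) (Usim n) := by
  unfold Lr
  refine ContinuousOn.add (ContinuousOn.add ?_ ?_) ?_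
  · exact continuousOn_const.mul (continuous_Dr.continuousOn.log fun x hx => (Dr_pos hx).ne')
  · refine continuousOn_const.mul (continuousOn_finsetSum _ fun i _ => ?_)
    exact (continuous_apply i).continuousOn.log fun x hx => (hx.2 i).1.ne'
  · refine continuousOn_const.mul (continuousOn_finsetSum _ fun i _ => ?_)
    exact (continuous_const.sub (continuous_apply i)).continuousOn.log fun x hx => by
      have := (hx.2 i).2
      exact (by linarith : (0 : ℝ) < 1 - x i).ne'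

lemma contOn_Lq {n : ℕ} {J : Type} [Fintype J] (η : J → ℂ) (b : J → ℕ)
    (h : ∀ j (t : ℝ), 0 ≤ t → t ≤ 1 → 1 - (t : ℂ) * η j ≠ 0) :
    ContinuousOn (fun x : Fin n → ℝ => Lq η b x) (Usim n) := by
  unfold Lq
  refine continuousOn_finsetSum _ fun j _ => continuousOn_const.mul
    (continuousOn_finsetSum _ fun i _ => ?_)
  refine ContinuousOn.clog ?_ fun x hx => slit (η j) (h j) (x i) (hx.2 i).1.le (hx.2 i).2.le
  exact (continuous_const.sub ((Complex.continuous_ofReal.comp (continuous_apply i)).mul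
    continuous_const)).continuousOn

lemma abs_im_Lq {n : ℕ} {J : Type} [Fintype J] (η : J → ℂ) (b : J → ℕ) (x : Fin n → ℝ) :
    |(Lq η b x).im| ≤ ∑ j, (b j : ℝ) * (n * Real.pi) := by
  unfold Lq
  rw [Complex.im_sum]
  refine (Finset.abs_sum_le_sum_abs _ _).trans (Finset.sum_le_sum fun j _ => ?_)
  have e : ((b j : ℂ) * ∑ i, Complex.log (1 - (x i : ℂ) * η j)).im =
      (b j : ℝ) * ∑ i, (Complex.log (1 - (x i : ℂ) * η j)).im := by
    rw [← Complex.im_sum, ← Complex.ofReal_natCast, Complex.im_ofReal_mul]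
  rw [e, abs_mul, Nat.abs_cast]
  refine mul_le_mul_of_nonneg_left ?_ (Nat.cast_nonneg _)
  refine (Finset.abs_sum_le_sum_abs _ _).trans ?_
  have h2 : ∀ i ∈ (Finset.univ : Finset (Fin n)), |(Complex.log (1 - (x i : ℂ) * η j)).im| ≤
      Real.pi := fun i _ => by
    rw [Complex.log_im]
    exact Complex.abs_arg_le_pi _
  refine (Finset.sum_le_sum h2).trans ?_
  rw [Finset.sum_const, Finset.card_univ, Fintype.card_fin, nsmul_eq_mul]

lemma Qc_norm_le {n : ℕ} {J : Type} [Fintype J] (η : J → ℂ) (b : J → ℕ) {x : Fin n → ℝ}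
    (hx : x ∈ Usim n) : ‖Qc η b x‖ ≤ ∏ j, ((1 + ‖η j‖) ^ n) ^ b j := by
  unfold Qc
  rw [norm_prod]
  refine Finset.prod_le_prod (fun j _ => norm_nonneg _) fun j _ => ?_
  rw [norm_pow, norm_prod]
  refine pow_le_pow_left₀ (Finset.prod_nonneg fun i _ => norm_nonneg _) ?_ _
  have h1 : ∀ i ∈ (Finset.univ : Finset (Fin n)), ‖1 - (x i : ℂ) * η j‖ ≤ 1 + ‖η j‖ := by
    intro i _
    refine (norm_sub_le _ _).trans ?_
    rw [norm_one, norm_mul, Complex.norm_real, Real.norm_eq_abs, abs_of_pos (hx.2 i).1]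
    have := (hx.2 i).2
    have h3 := norm_nonneg (η j)
    nlinarith
  refine (Finset.prod_le_prod (fun i _ => norm_nonneg _) h1).trans ?_
  rw [Finset.prod_const, Finset.card_univ, Fintype.card_fin]

lemma exists_delta (η : ℂ) (h : ∀ t : ℝ, 0 ≤ t → t ≤ 1 → 1 - (t : ℂ) * η ≠ 0) :
    ∃ δ : ℝ, 0 < δ ∧ ∀ t : ℝ, 0 ≤ t → t ≤ 1 → δ ≤ ‖1 - (t : ℂ) * η‖ := by
  have hc : ContinuousOn (fun t : ℝ => ‖1 - (t : ℂ) * η‖) (Set.Icc 0 1) := by
    fun_prop
  obtain ⟨t₀, ht₀, hmin⟩ := isCompact_Icc.exists_isMinOn (Set.nonempty_Icc.mpr zero_le_one) hc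
  exact ⟨_, norm_pos_iff.mpr (h t₀ ht₀.1 ht₀.2), fun t h0 h1 => hmin ⟨h0, h1⟩⟩

lemma le_Qc_norm {n : ℕ} {J : Type} [Fintype J] (η : J → ℂ) (b : J → ℕ) (δ : J → ℝ)
    (hδ : ∀ j, 0 < δ j) (h : ∀ j (t : ℝ), 0 ≤ t → t ≤ 1 → δ j ≤ ‖1 - (t : ℂ) * η j‖)
    {x : Fin n → ℝ} (hx : x ∈ Usim n) : ∏ j, ((δ j) ^ n) ^ b j ≤ ‖Qc η b x‖ := by
  unfold Qc
  rw [norm_prod]
  refine Finset.prod_le_prod (fun j _ => pow_nonneg (pow_nonneg (hδ j).le _) _) fun j _ => ?_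
  rw [norm_pow, norm_prod]
  refine pow_le_pow_left₀ (pow_nonneg (hδ j).le _) ?_ _
  have h1 : ∀ i ∈ (Finset.univ : Finset (Fin n)), δ j ≤ ‖1 - (x i : ℂ) * η j‖ := fun i _ =>
    h j (x i) (hx.2 i).1.le (hx.2 i).2.le
  refine le_trans ?_ (Finset.prod_le_prod (fun i _ => (hδ j).le) h1)
  rw [Finset.prod_const, Finset.card_univ, Fintype.card_fin]

lemma frontier_zero {n : ℕ} (a b₁ b₂ : ℕ) (ha : 1 ≤ a) (hb₁ : 1 ≤ b₁) (hb₂ : 1 ≤ b₂)
    (hopen : IsOpen (Usim n)) {x : Fin n → ℝ} (hx : x ∈ frontier (Usim n)) :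
    Rr a b₁ b₂ x = 0 := by
  rw [hopen.frontier_eq] at hx
  obtain ⟨hcl, hnot⟩ := hx
  have hclosed : IsClosed {x : Fin n → ℝ | (∀ i j, i < j → x i ≤ x j) ∧ ∀ i, 0 ≤ x i ∧ x i ≤ 1} := by
    have e : {x : Fin n → ℝ | (∀ i j, i < j → x i ≤ x j) ∧ ∀ i, 0 ≤ x i ∧ x i ≤ 1} =
        (⋂ i, ⋂ j, ⋂ (_ : i < j), {x | x i ≤ x j}) ∩ ⋂ i, ({x | 0 ≤ x i} ∩ {x | x i ≤ 1}) := by
      ext x
      simp only [Set.mem_ofPred_eq, Set.mem_inter_iff, Set.mem_iInter]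
    rw [e]
    refine IsClosed.inter (isClosed_iInter fun i => isClosed_iInter fun j => isClosed_iInter
      fun _ => isClosed_le (continuous_apply i) (continuous_apply j)) (isClosed_iInter fun i =>
      (isClosed_le continuous_const (continuous_apply i)).inter
        (isClosed_le (continuous_apply i) continuous_const))
  have hsub : Usim n ⊆ {x : Fin n → ℝ | (∀ i j, i < j → x i ≤ x j) ∧ ∀ i, 0 ≤ x i ∧ x i ≤ 1} :=
    fun y hy => ⟨fun i j hij => (hy.1 i j hij).le, fun i => ⟨(hy.2 i).1.le, (hy.2 i).2.le⟩⟩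
  have h1 := closure_minimal hsub hclosed hcl
  unfold Rr
  by_cases hA : ∀ i j, i < j → x i < x j
  · have hB : ¬ ∀ i, 0 < x i ∧ x i < 1 := fun h => hnot ⟨hA, h⟩
    push Not at hB
    obtain ⟨i, hi⟩ := hB
    by_cases h0 : 0 < x i
    · have h2 : 1 - x i = 0 := by
        have := hi h0
        have := (h1.2 i).2
        linarith
      have h3 : ∏ i, (1 - x i) = 0 := Finset.prod_eq_zero (Finset.mem_univ i) h2
      rw [h3, zero_pow (by omega : b₂ ≠ 0), mul_zero]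
    · have h2 : x i = 0 := le_antisymm (not_lt.mp h0) (h1.2 i).1
      have h3 : ∏ i, x i = 0 := Finset.prod_eq_zero (Finset.mem_univ i) h2
      rw [h3, zero_pow (by omega : b₁ ≠ 0), mul_zero, zero_mul]
  · push Not at hA
    obtain ⟨i, j, hij, hle⟩ := hA
    have h2 : x j - x i = 0 := by
      have := h1.1 i j hij
      linarith
    have h3 : Dr x = 0 :=
      Finset.prod_eq_zero (Finset.mem_univ i) (Finset.prod_eq_zero (Finset.mem_Ioi.mpr hij) h2)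
    rw [h3, zero_pow (by omega : 2 * a ≠ 0), zero_mul, zero_mul]

/-- brick LOG -/
theorem t_Log : StmVal → StmLog := by
  intro hval n F a b₀ b₁ b₂ w l J _ z b hn hF ha hb₁ hb₂ hl hz
  have hzw : ∀ j, z j - w ≠ 0 := by
    intro j h
    apply hz j 0 le_rfl zero_le_one
    push_cast
    linear_combination h
  set η : J → ℂ := fun j => l / (z j - w) with hη
  have hη1 : ∀ j (t : ℝ), 0 ≤ t → t ≤ 1 → 1 - (t : ℂ) * η j ≠ 0 := by
    intro j t h0 h1 h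
    apply hz j t h0 h1
    rw [hη] at h
    have h2 := hzw j
    simp only at h
    field_simp at h
    linear_combination h
  set κ : ℂ := (l ^ (n * (n - 1))) ^ a * ((-l) ^ n) ^ b₁ * (l ^ n) ^ b₂ *
    ∏ j, ((z j - w) ^ n) ^ b j with hκ
  have hκ0 : κ ≠ 0 := by
    rw [hκ]
    refine mul_ne_zero (mul_ne_zero (mul_ne_zero ?_ ?_) ?_) ?_
    · exact pow_ne_zero _ (pow_ne_zero _ hl)
    · exact pow_ne_zero _ (pow_ne_zero _ (neg_ne_zero.mpr hl))
    · exact pow_ne_zero _ (pow_ne_zero _ hl)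
    · exact Finset.prod_ne_zero_iff.mpr fun j _ => pow_ne_zero _ (pow_ne_zero _ (hzw j))
  have hV : ∀ x : Fin n → ℝ, ev x (qq n w l (X (Fin.last n) ^ b₀ * F ^ a * hv n w ^ b₁ *
      hv n (w + l) ^ b₂ * ∏ j, hv n (z j) ^ b j)) = κ * (Rr a b₁ b₂ x : ℂ) * Qc η b x :=
    fun x => value hval n F a b₀ b₁ b₂ w l J z b hn hF hzw x
  obtain ⟨-, -, -, -, hopen, -, -⟩ := hval n w l hn
  choose δ hδ0 hδ using fun j => exists_delta (η j) (hη1 j)
  set L : (Fin n → ℝ) → ℂ := fun x => Complex.log κ + (Lr a b₁ b₂ x : ℂ) + Lq η b x with hL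
  have hexp : ∀ x ∈ Usim n, Complex.exp (L x) = κ * (Rr a b₁ b₂ x : ℂ) * Qc η b x := by
    intro x hx
    rw [hL]
    simp only
    rw [Complex.exp_add, Complex.exp_add, Complex.exp_log hκ0, ← Complex.ofReal_exp,
      exp_Lr a b₁ b₂ hx, exp_Lq η b x fun i j => hη1 j (x i) (hx.2 i).1.le (hx.2 i).2.le]
  have hnorm : ∀ x ∈ Usim n, Real.exp ((L x).re) = ‖κ‖ * Rr a b₁ b₂ x * ‖Qc η b x‖ := by
    intro x hx
    rw [← Complex.norm_exp, hexp x hx, norm_mul, norm_mul, Complex.norm_real, Real.norm_eq_abs,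
      abs_of_pos (Rr_pos a b₁ b₂ hx)]
  set C₁ : ℝ := ‖κ‖ * ∏ j, ((1 + ‖η j‖) ^ n) ^ b j with hC₁
  have hC₁0 : 0 ≤ C₁ := mul_nonneg (norm_nonneg _) (Finset.prod_nonneg fun j _ =>
    pow_nonneg (pow_nonneg (by positivity) _) _)
  have hS0 : 0 ≤ ∑ j, (b j : ℝ) * (n * Real.pi) := Finset.sum_nonneg fun j _ => by positivity
  refine ⟨L, Real.pi + ∑ j, (b j : ℝ) * (n * Real.pi) + C₁, ‖κ‖ * ∏ j, ((δ j) ^ n) ^ b j, ?_, ?_,
    ?_, ?_, ?_, ?_, ?_⟩
  · exact mul_pos (norm_pos_iff.mpr hκ0) (Finset.prod_pos fun j _ => pow_pos (pow_pos (hδ0 j) _) _)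
  · refine (continuousOn_const.add ?_).add (contOn_Lq η b hη1)
    exact Complex.continuous_ofReal.comp_continuousOn (contOn_Lr a b₁ b₂)
  · intro x hx
    rw [hexp x hx, hV]
  · intro x hx
    have h1 : (L x).im = (Complex.log κ).im + (Lq η b x).im := by
      rw [hL]
      simp only [Complex.add_im, Complex.ofReal_im, add_zero]
    rw [h1]
    have h2 : |(Complex.log κ).im| ≤ Real.pi := by
      rw [Complex.log_im]
      exact Complex.abs_arg_le_pi _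
    have h3 := abs_im_Lq η b x
    have h4 := abs_add_le (Complex.log κ).im (Lq η b x).im
    linarith
  · intro x hx
    have h1 := Real.add_one_le_exp (L x).re
    rw [hnorm x hx] at h1
    have h2 : ‖κ‖ * Rr a b₁ b₂ x * ‖Qc η b x‖ ≤ C₁ := by
      rw [hC₁]
      refine mul_le_mul ?_ (Qc_norm_le η b hx) (norm_nonneg _) (norm_nonneg _)
      exact mul_le_of_le_one_right (norm_nonneg _) (Rr_le a b₁ b₂ hx)
    have h3 := Real.pi_pos
    linarith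
  · intro x hx
    rw [hnorm x hx]
    have h1 := Ef_le a b₁ b₂ hx
    have h2 := le_Qc_norm η b δ hδ0 hδ hx
    have h3 : 0 ≤ ∏ j, ((δ j) ^ n) ^ b j :=
      Finset.prod_nonneg fun j _ => pow_nonneg (pow_nonneg (hδ0 j).le _) _
    calc (‖κ‖ * ∏ j, ((δ j) ^ n) ^ b j) * Ef x ^ (a + b₁ + b₂) =
        ‖κ‖ * Ef x ^ (a + b₁ + b₂) * ∏ j, ((δ j) ^ n) ^ b j := by ring
      _ ≤ ‖κ‖ * Rr a b₁ b₂ x * ‖Qc η b x‖ := by
        refine mul_le_mul (mul_le_mul_of_nonneg_left h1 (norm_nonneg _)) h2 h3 ?_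
        exact mul_nonneg (norm_nonneg _) (Rr_pos a b₁ b₂ hx).le
  · intro x hx
    rw [hV, frontier_zero a b₁ b₂ ha hb₁ hb₂ hopen hx]
    simp

end Pool.Agent.K3h43.BF
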